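import Pool.Agent.Helper14K9.PJ.Base

/-! # Project PJ: leaf CNT (helper12) -/

set_option autoImplicit false

namespace Pool.Agent.Helper12K9.PJ

open Function
open Pool.Agent.Y924.EL Pool.Agent.Y924.UF
open Pool.Agent.Helper14K9.SO Pool.Agent.Helper14K9.PJ

section

variable {K : Type} [CommRing K] {P : Set K}

/-- the coded relation is definable -/
theorem rc_BB (p : ℕ) (t u w s a b : ℕ) :
    Rc P (fun v => BB (v t) p (v u) (v w) (v s) (v a) (v b)) := by
  obtain ⟨j, hj⟩ : ∃ j, j = t + u + w + s + a + b + 1 := ⟨_, rfl⟩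
  refine Rc.ex' j (R := fun v z => z * ((v u - v a) * (v w - v b)) = v s ∧ HH (v t) p z) ?_
    fun v x c => ?_
  · exact (Rc.eqK ((Tk.var j).mul (((Tk.var u).sub (Tk.var a)).mul ((Tk.var w).sub (Tk.var b))))
      (Tk.var s)).and (Rc.of_rl (rl_HH p (Tm.var t) (Tm.var j)))
  · simp only [update_of_ne (show t ≠ j by omega), update_of_ne (show u ≠ j by omega),
      update_of_ne (show w ≠ j by omega), update_of_ne (show s ≠ j by omega),
      update_of_ne (show a ≠ j by omega), update_of_ne (show b ≠ j by omega)]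

/-- one half of a bijection -/
def Half (R : K → K → Prop) (X Y : Set K) : Prop :=
  ∀ a, a ∈ X → ∃ b, b ∈ Y ∧ R a b ∧ ∀ b', b' ∈ Y → R a b' → b' = b

/-- definable above the index `N`, and independent of the variables above `N` -/
structure Fi (P : Set K) (N : ℕ) (X : (ℕ → K) → Set K) : Prop where
  mem : ∀ j, N ≤ j → Rc P (fun v => v j ∈ X v)
  ind : ∀ j, N ≤ j → ∀ v a, X (update v j a) = X v

structure Fr (P : Set K) (N : ℕ) (R : (ℕ → K) → K → K → Prop) : Prop where
  mem : ∀ i j, N ≤ i → N ≤ j → Rc P (fun v => R v (v i) (v j))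
  ind : ∀ j, N ≤ j → ∀ v a, R (update v j a) = R v

theorem Fi.mono {N M : ℕ} {X : (ℕ → K) → Set K} (h : Fi P N X) (hNM : N ≤ M) : Fi P M X :=
  ⟨fun j hj => h.mem j (hNM.trans hj), fun j hj => h.ind j (hNM.trans hj)⟩

theorem rc_half {N : ℕ} {R : (ℕ → K) → K → K → Prop} {X Y : (ℕ → K) → Set K}
    (hX : Fi P N X) (hY : Fi P N Y) (hR : Fr P N R) : Rc P (fun v => Half (R v) (X v) (Y v)) := by
  have h3 : Rc P (fun v => ∀ b', b' ∈ Y v → R v (v N) b' → b' = v (N + 1)) := by
    refine Rc.all' (N + 2) (R := fun v b' => b' ∈ Y v → R v (v N) b' → b' = v (N + 1)) ?_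
      fun v a c => ?_
    · exact (hY.mem (N + 2) (by omega)).imp ((hR.mem N (N + 2) le_rfl (by omega)).imp
        (Rc.eqV (N + 2) (N + 1)))
    · rw [hY.ind (N + 2) (by omega), hR.ind (N + 2) (by omega), update_of_ne (by omega),
        update_of_ne (by omega)]
  have h2 : Rc P (fun v => ∃ b, b ∈ Y v ∧ R v (v N) b ∧ ∀ b', b' ∈ Y v → R v (v N) b' → b' = b) := by
    refine Rc.ex' (N + 1) (R := fun v b => b ∈ Y v ∧ R v (v N) b ∧
      ∀ b', b' ∈ Y v → R v (v N) b' → b' = b) ?_ fun v a c => ?_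
    · exact (hY.mem (N + 1) (by omega)).and ((hR.mem N (N + 1) le_rfl (by omega)).and h3)
    · rw [hY.ind (N + 1) (by omega), hR.ind (N + 1) (by omega), update_of_ne (by omega)]
  refine Rc.all' N (R := fun v a => a ∈ X v → ∃ b, b ∈ Y v ∧ R v a b ∧
    ∀ b', b' ∈ Y v → R v a b' → b' = b) ((hX.mem N le_rfl).imp h2) fun v a c => ?_
  rw [hX.ind N le_rfl, hY.ind N le_rfl, hR.ind N le_rfl]

theorem Fr.swap {N : ℕ} {R : (ℕ → K) → K → K → Prop} (hR : Fr P N R) :
    Fr P N (fun v a b => R v b a) :=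
  ⟨fun i j hi hj => hR.mem j i hj hi, fun j hj v a => by
    funext x y
    rw [hR.ind j hj]⟩

theorem rc_bij {N : ℕ} {R : (ℕ → K) → K → K → Prop} {X Y : (ℕ → K) → Set K}
    (hX : Fi P N X) (hY : Fi P N Y) (hR : Fr P N R) : Rc P (fun v => Bij (R v) (X v) (Y v)) :=
  (rc_half hX hY hR).and (rc_half hY hX hR.swap)

theorem fr_BB (p : ℕ) {t u w s N : ℕ} (ht : t < N) (hu : u < N) (hw : w < N) (hs : s < N) :
    Fr P N (fun v => BB (v t) p (v u) (v w) (v s)) := by
  refine ⟨fun i j _ _ => rc_BB p t u w s i j, fun j hj v a => ?_⟩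
  rw [update_of_ne (by omega), update_of_ne (by omega), update_of_ne (by omega),
    update_of_ne (by omega)]

theorem rc_ceq (p : ℕ) {N : ℕ} {X Y : (ℕ → K) → Set K} (hX : Fi P N X) (hY : Fi P N Y) :
    Rc P (fun v => CEq p (X v) (Y v)) := by
  have h4 : Rc P (fun v => Bij (BB (v N) p (v (N + 1)) (v (N + 2)) (v (N + 3))) (X v) (Y v)) :=
    rc_bij (N := N + 4) (hX.mono (by omega)) (hY.mono (by omega))
      (fr_BB p (by omega) (by omega) (by omega) (by omega))
  have h3 : Rc P (fun v => ∃ s, Bij (BB (v N) p (v (N + 1)) (v (N + 2)) s) (X v) (Y v)) :=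
    Rc.ex' (N + 3) (R := fun v s => Bij (BB (v N) p (v (N + 1)) (v (N + 2)) s) (X v) (Y v)) h4
      fun v a c => by
        rw [hX.ind (N + 3) (by omega), hY.ind (N + 3) (by omega), update_of_ne (by omega),
          update_of_ne (by omega), update_of_ne (by omega)]
  have h2 : Rc P (fun v => ∃ w s, Bij (BB (v N) p (v (N + 1)) w s) (X v) (Y v)) :=
    Rc.ex' (N + 2) (R := fun v w => ∃ s, Bij (BB (v N) p (v (N + 1)) w s) (X v) (Y v)) h3
      fun v a c => by
        rw [hX.ind (N + 2) (by omega), hY.ind (N + 2) (by omega), update_of_ne (by omega),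
          update_of_ne (by omega)]
  have h1 : Rc P (fun v => ∃ u w s, Bij (BB (v N) p u w s) (X v) (Y v)) :=
    Rc.ex' (N + 1) (R := fun v u => ∃ w s, Bij (BB (v N) p u w s) (X v) (Y v)) h2
      fun v a c => by
        rw [hX.ind (N + 1) (by omega), hY.ind (N + 1) (by omega), update_of_ne (by omega)]
  exact Rc.ex' N (R := fun v t => ∃ u w s, Bij (BB t p u w s) (X v) (Y v)) h1
      fun v a c => by rw [hX.ind N le_rfl, hY.ind N le_rfl]

theorem fi_sub (p : ℕ) {N M : ℕ} {Z : (ℕ → K) → Set K} (hZ : Fi P N Z) (hNM : N ≤ M)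
    {t u w d : ℕ} (ht : t < M) (hu : u < M) (hw : w < M) (hd : d < M) :
    Fi P M (fun v => {c | c ∈ Z v ∧ BB (v t) p (v u) (v w) (v d) c c}) ∧
    Fi P M (fun v => {c | c ∈ Z v ∧ ¬ BB (v t) p (v u) (v w) (v d) c c}) := by
  refine ⟨⟨fun j hj => (hZ.mem j (hNM.trans hj)).and (rc_BB p t u w d j j), fun j hj v a => ?_⟩,
    ⟨fun j hj => (hZ.mem j (hNM.trans hj)).and (rc_BB p t u w d j j).not, fun j hj v a => ?_⟩⟩
  · rw [hZ.ind j (hNM.trans hj), update_of_ne (by omega), update_of_ne (by omega),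
      update_of_ne (by omega), update_of_ne (by omega)]
  · rw [hZ.ind j (hNM.trans hj), update_of_ne (by omega), update_of_ne (by omega),
      update_of_ne (by omega), update_of_ne (by omega)]

theorem rc_cadd (p : ℕ) {N : ℕ} {X Y Z : (ℕ → K) → Set K} (hX : Fi P N X) (hY : Fi P N Y)
    (hZ : Fi P N Z) : Rc P (fun v => CAdd p (X v) (Y v) (Z v)) := by
  have h6 : Rc P (fun v =>
      Bij (BB (v N) p (v (N + 1)) (v (N + 2)) (v (N + 3))) (X v)
        {c | c ∈ Z v ∧ BB (v N) p (v (N + 1)) (v (N + 2)) (v (N + 5)) c c} ∧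
      Bij (BB (v N) p (v (N + 1)) (v (N + 2)) (v (N + 4))) (Y v)
        {c | c ∈ Z v ∧ ¬ BB (v N) p (v (N + 1)) (v (N + 2)) (v (N + 5)) c c}) :=
    (rc_bij (N := N + 6) (hX.mono (by omega)) (fi_sub p hZ (by omega) (by omega) (by omega)
      (by omega) (by omega)).1 (fr_BB p (by omega) (by omega) (by omega) (by omega))).and
    (rc_bij (N := N + 6) (hY.mono (by omega)) (fi_sub p hZ (by omega) (by omega) (by omega)
      (by omega) (by omega)).2 (fr_BB p (by omega) (by omega) (by omega) (by omega)))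
  have h5 := Rc.ex' (N + 5) (R := fun v d =>
      Bij (BB (v N) p (v (N + 1)) (v (N + 2)) (v (N + 3))) (X v)
        {c | c ∈ Z v ∧ BB (v N) p (v (N + 1)) (v (N + 2)) d c c} ∧
      Bij (BB (v N) p (v (N + 1)) (v (N + 2)) (v (N + 4))) (Y v)
        {c | c ∈ Z v ∧ ¬ BB (v N) p (v (N + 1)) (v (N + 2)) d c c}) h6
      fun v a c => by
        rw [hX.ind (N + 5) (by omega), hY.ind (N + 5) (by omega), hZ.ind (N + 5) (by omega),
          update_of_ne (show N ≠ N + 5 by omega), update_of_ne (show N + 1 ≠ N + 5 by omega),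
          update_of_ne (show N + 2 ≠ N + 5 by omega), update_of_ne (show N + 3 ≠ N + 5 by omega),
          update_of_ne (show N + 4 ≠ N + 5 by omega)]
  have h4 := Rc.ex' (N + 4) (R := fun v s' => ∃ d,
      Bij (BB (v N) p (v (N + 1)) (v (N + 2)) (v (N + 3))) (X v)
        {c | c ∈ Z v ∧ BB (v N) p (v (N + 1)) (v (N + 2)) d c c} ∧
      Bij (BB (v N) p (v (N + 1)) (v (N + 2)) s') (Y v)
        {c | c ∈ Z v ∧ ¬ BB (v N) p (v (N + 1)) (v (N + 2)) d c c}) h5
      fun v a c => by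
        rw [hX.ind (N + 4) (by omega), hY.ind (N + 4) (by omega), hZ.ind (N + 4) (by omega),
          update_of_ne (show N ≠ N + 4 by omega), update_of_ne (show N + 1 ≠ N + 4 by omega),
          update_of_ne (show N + 2 ≠ N + 4 by omega), update_of_ne (show N + 3 ≠ N + 4 by omega)]
  have h3 := Rc.ex' (N + 3) (R := fun v s => ∃ s' d,
      Bij (BB (v N) p (v (N + 1)) (v (N + 2)) s) (X v)
        {c | c ∈ Z v ∧ BB (v N) p (v (N + 1)) (v (N + 2)) d c c} ∧
      Bij (BB (v N) p (v (N + 1)) (v (N + 2)) s') (Y v)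
        {c | c ∈ Z v ∧ ¬ BB (v N) p (v (N + 1)) (v (N + 2)) d c c}) h4
      fun v a c => by
        rw [hX.ind (N + 3) (by omega), hY.ind (N + 3) (by omega), hZ.ind (N + 3) (by omega),
          update_of_ne (show N ≠ N + 3 by omega), update_of_ne (show N + 1 ≠ N + 3 by omega),
          update_of_ne (show N + 2 ≠ N + 3 by omega)]
  have h2 := Rc.ex' (N + 2) (R := fun v w => ∃ s s' d,
      Bij (BB (v N) p (v (N + 1)) w s) (X v)
        {c | c ∈ Z v ∧ BB (v N) p (v (N + 1)) w d c c} ∧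
      Bij (BB (v N) p (v (N + 1)) w s') (Y v)
        {c | c ∈ Z v ∧ ¬ BB (v N) p (v (N + 1)) w d c c}) h3
      fun v a c => by
        rw [hX.ind (N + 2) (by omega), hY.ind (N + 2) (by omega), hZ.ind (N + 2) (by omega),
          update_of_ne (show N ≠ N + 2 by omega), update_of_ne (show N + 1 ≠ N + 2 by omega)]
  have h1 := Rc.ex' (N + 1) (R := fun v u => ∃ w s s' d,
      Bij (BB (v N) p u w s) (X v) {c | c ∈ Z v ∧ BB (v N) p u w d c c} ∧
      Bij (BB (v N) p u w s') (Y v) {c | c ∈ Z v ∧ ¬ BB (v N) p u w d c c}) h2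
      fun v a c => by
        rw [hX.ind (N + 1) (by omega), hY.ind (N + 1) (by omega), hZ.ind (N + 1) (by omega),
          update_of_ne (show N ≠ N + 1 by omega)]
  exact Rc.ex' N (R := fun v t => ∃ u w s s' d,
      Bij (BB t p u w s) (X v) {c | c ∈ Z v ∧ BB t p u w d c c} ∧
      Bij (BB t p u w s') (Y v) {c | c ∈ Z v ∧ ¬ BB t p u w d c c}) h1
      fun v a c => by rw [hX.ind N le_rfl, hY.ind N le_rfl, hZ.ind N le_rfl]

end

/-- families of sets above a bound for the variables -/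
theorem fi_of {p : ℕ} [Fact p.Prime] {P : Set (LaurentSeries (ZMod p))}
    {X : (ℕ → LaurentSeries (ZMod p)) → Set (LaurentSeries (ZMod p))}
    (hm : Rc P (fun v => v 0 ∈ X v)) (hi : ∀ v a, X (update v 0 a) = X v) :
    ∃ N, Fi P N X := by
  obtain ⟨N, hN⟩ := hm.fresh
  refine ⟨N + 1, fun j _ => ?_, fun j hj v a => ?_⟩
  · exact Rc.app (ρ := id) surjective_id (R := fun v c => c ∈ X v) (Tk.var j) 0 hm
      fun v a c => by rw [hi]
  · ext x
    have h := hN j (by omega) (update v 0 x) a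
    rw [update_comm (show (0 : ℕ) ≠ j by omega), hi, hi, update_self, update_self] at h
    exact h

theorem cnt : S_CNT := by
  intro p _ P X Y Z hX hY hZ
  obtain ⟨N1, h1⟩ := fi_of hX.mem hX.ind
  obtain ⟨N2, h2⟩ := fi_of hY.mem hY.ind
  obtain ⟨N3, h3⟩ := fi_of hZ.mem hZ.ind
  obtain ⟨N, hN⟩ : ∃ N, N = N1 + N2 + N3 := ⟨_, rfl⟩
  have hX' := h1.mono (show N1 ≤ N by omega)
  have hY' := h2.mono (show N2 ≤ N by omega)
  have hZ' := h3.mono (show N3 ≤ N by omega)
  constructor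
  · exact (rc_ceq p hX' hY').congr fun v =>
      Pool.Agent.Y833.UF.t_CEQ Pool.Agent.Results.MP_db9079_lc.UniformFiniteness.code_all p (X v) (Y v) (hX.fin v) (hY.fin v)
  · exact (rc_cadd p hX' hY' hZ').congr fun v =>
      Pool.Agent.Y662.UF.t_CADD Pool.Agent.Results.MP_db9079_lc.UniformFiniteness.code_all p (X v) (Y v) (Z v) (hX.fin v) (hY.fin v) (hZ.fin v)

end Pool.Agent.Helper12K9.PJ
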